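import Pool.Agent.V11131.Mod7

/-!
An abelian subgroup of an asymptotically rigid mapping class group which is not a direct sum
of cyclic groups.
-/

namespace Pool.Agent.Results.MP_dd8834_al.NotDirectSum

open Pool.Agent.V11131.Mod

/-- There is a locally finite planar tree A, in which one vertex (the root) has degree 1 and
all the other vertices have degree 3, such that the asymptotically rigid mapping class group
mod(A) has an abelian subgroup which is not isomorphic to a direct sum of cyclic groups. -/
theorem result : ∃ X : TreeSurface, X.IsA21 ∧ HasBadAbelian X.MCG :=
  ⟨XX, XX_A21, MCG_bad⟩

end Pool.Agent.Results.MP_dd8834_al.NotDirectSum
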